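import Pool.Agent.Y537.PP.Final

/-!
# Perfect graphs have no odd holes; hardness for a class
-/

namespace Pool.Agent.Y537.PP

open Pool.Agent.NPC Pool.Agent.H692R2 Pool.Agent.H515R2.PP

variable {V : Type*}

theorem cyc_adj_iff' (m : ℕ) (hm : 3 ≤ m) (i j : Fin m) (hij : i.1 < j.1) :
    (SimpleGraph.cycleGraph m).Adj i j ↔ (j.1 = i.1 + 1 ∨ (i.1 = 0 ∧ j.1 = m - 1)) := by
  rw [SimpleGraph.cycleGraph_adj']
  have hi := i.2
  have hj := j.2
  rw [Fin.sub_def, Fin.sub_def]
  simp only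
  have e1 : (m - i.1 + j.1) % m = j.1 - i.1 := by
    have : m - i.1 + j.1 = m + (j.1 - i.1) := by omega
    rw [this, Nat.add_mod_left, Nat.mod_eq_of_lt (by omega)]
  have e2 : (m - j.1 + i.1) % m = m - j.1 + i.1 := Nat.mod_eq_of_lt (by omega)
  rw [e1, e2]
  omega

theorem noOddHole_of_perfect {G : SimpleGraph V} (h : Perfect G) : NoOddHole G := by
  intro m hm hodd
  refine ⟨fun e => ?_⟩
  have h0 : 0 < m := by omega
  refine no_odd_hole G h m hm hodd (fun n => if h : n < m then e ⟨n, h⟩ else e ⟨0, h0⟩) ?_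
  intro i j hij hj
  have hi : i < m := by omega
  simp only [hi, hj, dif_pos]
  rw [e.map_rel_iff, cyc_adj_iff' m (by omega) _ _ hij]

/-- Hardness of the recognition of the probe graphs of a class. -/
theorem main_hard (C : (n : ℕ) → SimpleGraph (Fin n) → Prop)
    (h1 : ∀ n (G : SimpleGraph (Fin n)), Comparability G → G.Colorable 3 → C n G)
    (h2 : ∀ n (G : SimpleGraph (Fin n)), C n G → NoHoles G) :
    NPHardP (fun G : FinGraph => ProbeOf (C G.n) G.graph) := by
  intro L hL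
  obtain ⟨f, hf, hf1, hf2, hf3⟩ := main L hL
  refine ⟨fun x => bits (f x), hf, fun x => ?_⟩
  constructor
  · intro h
    exact ⟨f x, rfl, (hf2 x h).mono (fun G hG => h1 _ G hG.1 hG.2)⟩
  · rintro ⟨a, ha, hPa⟩
    have hPa' : ProbeOf (C a.n) a.graph := hPa
    rw [bits_injective ha] at hPa'
    by_contra hcon
    exact hf3 x hcon (hPa'.mono (fun G hG => h2 _ G hG))

end Pool.Agent.Y537.PP
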