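import Pool.Agent.Y537.PP.Sound

/-!
# The completions are comparability graphs of height at most three
-/

namespace Pool.Agent.Y537.PP

open Pool.Agent.H515R2.PP

section Comp

variable {V : Type*}

/-- `G` is a comparability graph: for some transitive irreflexive relation (strict partial order)
of the vertices, two vertices are adjacent if and only if they are comparable. -/
def Comparability (G : SimpleGraph V) : Prop :=
  ∃ r : V → V → Prop, (∀ a, ¬ r a a) ∧ (∀ a b c, r a b → r b c → r a c) ∧
    ∀ a b, G.Adj a b ↔ (r a b ∨ r b a)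

theorem Comparability.iso {W : Type*} {G : SimpleGraph V} {H : SimpleGraph W} (e : G ≃g H)
    (h : Comparability G) : Comparability H := by
  obtain ⟨r, h1, h2, h3⟩ := h
  refine ⟨fun a b => r (e.symm a) (e.symm b), fun a => h1 _, fun a b c => h2 _ _ _, fun a b => ?_⟩
  rw [← h3]
  exact e.symm.map_rel_iff.symm

theorem colorable_iso {W : Type*} {G : SimpleGraph V} {H : SimpleGraph W} (e : G ≃g H) {n : ℕ}
    (h : G.Colorable n) : H.Colorable n :=
  h.of_hom e.symm.toHom

open Classical in
/-- The level of a vertex of an apex graph. -/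
noncomputable def lev (G : SimpleGraph V) (A : Set V) (c : V → Bool) (v : V) : Fin 3 :=
  if v ∈ A then
    (if ∃ s, G.Adj v s ∧ c s = false then (if ∃ s, G.Adj v s ∧ c s = true then 1 else 2) else 0)
  else (if c v = true then 2 else 0)

theorem lev_prop {G : SimpleGraph V} {A : Set V} {c : V → Bool} (h : Apex G A c) (u v : V)
    (hv : v ∉ A) (hu : u ∈ A) (huv : G.Adj u v) :
    (c v = true → lev G A c v = 2 ∧ (lev G A c u = 0 ∨
      (lev G A c u = 1 ∧ ∃ s, G.Adj u s ∧ c s = false))) ∧
    (c v = false → lev G A c v = 0 ∧ (lev G A c u = 2 ∨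
      (lev G A c u = 1 ∧ ∃ s, G.Adj u s ∧ c s = true))) := by
  classical
  constructor
  · intro hc
    refine ⟨by rw [lev, if_neg hv, if_pos hc], ?_⟩
    by_cases h1 : ∃ s, G.Adj u s ∧ c s = false
    · right
      exact ⟨by rw [lev, if_pos hu, if_pos h1, if_pos ⟨v, huv, hc⟩], h1⟩
    · left
      rw [lev, if_pos hu, if_neg h1]
  · intro hc
    refine ⟨by rw [lev, if_neg hv, if_neg (by simp [hc])], ?_⟩
    by_cases h1 : ∃ s, G.Adj u s ∧ c s = true
    · right
      exact ⟨by rw [lev, if_pos hu, if_pos ⟨v, huv, hc⟩, if_pos h1], h1⟩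
    · left
      rw [lev, if_pos hu, if_pos ⟨v, huv, hc⟩, if_neg h1]

theorem lev_ne {G : SimpleGraph V} {A : Set V} {c : V → Bool} (h : Apex G A c) (u v : V)
    (huv : G.Adj u v) : lev G A c u ≠ lev G A c v := by
  classical
  by_cases hu : u ∈ A <;> by_cases hv : v ∈ A
  · exact absurd huv (h.indep u hu v hv)
  · have h1 := lev_prop h u v hv hu huv
    cases hc : c v
    · obtain ⟨h2, h3⟩ := h1.2 hc
      rw [h2]
      rcases h3 with h3 | ⟨h3, _⟩ <;> rw [h3] <;> decide
    · obtain ⟨h2, h3⟩ := h1.1 hc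
      rw [h2]
      rcases h3 with h3 | ⟨h3, _⟩ <;> rw [h3] <;> decide
  · have h1 := lev_prop h v u hu hv huv.symm
    cases hc : c u
    · obtain ⟨h2, h3⟩ := h1.2 hc
      rw [h2]
      rcases h3 with h3 | ⟨h3, _⟩ <;> rw [h3] <;> decide
    · obtain ⟨h2, h3⟩ := h1.1 hc
      rw [h2]
      rcases h3 with h3 | ⟨h3, _⟩ <;> rw [h3] <;> decide
  · have h1 := h.col u v hu hv huv
    rw [lev, lev, if_neg hu, if_neg hv]
    cases h2 : c u <;> cases h3 : c v <;> simp_all

/-- A graph with the sufficient condition of the starting files is the comparability graph of a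
partial order with three levels. -/
theorem apex_comparability {G : SimpleGraph V} {A : Set V} {c : V → Bool} (h : Apex G A c) :
    Comparability G := by
  classical
  refine ⟨fun u v => G.Adj u v ∧ lev G A c u < lev G A c v, ?_, ?_, ?_⟩
  · rintro a ⟨h1, _⟩
    exact G.loopless.irrefl _ h1
  · rintro s p t ⟨h1, h2⟩ ⟨h3, h4⟩
    have h5 : lev G A c s = 0 ∧ lev G A c p = 1 ∧ lev G A c t = 2 := by
      generalize lev G A c s = x at *
      generalize lev G A c p = y at *
      generalize lev G A c t = z at *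
      revert x y z
      decide
    obtain ⟨e1, e2, e3⟩ := h5
    refine ⟨?_, by rw [e1, e3]; decide⟩
    have hp : p ∈ A := by
      by_contra hp
      rw [lev, if_neg hp] at e2
      split_ifs at e2 <;> revert e2 <;> decide
    have hs : s ∉ A := fun hs => h.indep s hs p hp h1
    have ht : t ∉ A := fun ht => h.indep p hp t ht h3
    have c1 : c s = false := by
      by_contra hc
      rw [lev, if_neg hs, if_pos (by simpa using hc)] at e1
      revert e1
      decide
    have c2 : c t = true := by
      by_contra hc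
      rw [lev, if_neg ht, if_neg hc] at e3
      revert e3
      decide
    exact h.nb p hp s t h1.symm h3 (by rw [c1, c2]; decide)
  · intro a b
    constructor
    · intro hab
      rcases lt_or_gt_of_ne (lev_ne h a b hab) with h1 | h1
      · exact Or.inl ⟨hab, h1⟩
      · exact Or.inr ⟨hab.symm, h1⟩
    · rintro (⟨h1, _⟩ | ⟨h1, _⟩)
      · exact h1
      · exact h1.symm

theorem apex_colorable {G : SimpleGraph V} {A : Set V} {c : V → Bool} (h : Apex G A c) :
    G.Colorable 3 :=
  ⟨SimpleGraph.Coloring.mk (lev G A c) (fun {u v} huv => lev_ne h u v huv)⟩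

/-- Sufficient condition for a completion. -/
theorem valid_of' (G : SimpleGraph V) (N A : Set V) (c : V → Bool)
    (hN : ∀ u ∈ N, ∀ v ∈ N, ¬ G.Adj u v) (hNA : ∀ u ∈ N, u ∉ A)
    (hA : ∀ u ∈ A, ∀ v ∈ A, ¬ G.Adj u v)
    (hc : ∀ u v, u ∉ A → v ∉ A → G.Adj u v → c u ≠ c v)
    (hnb : ∀ p ∈ A, ∀ s t, G.Adj p s → G.Adj p t → c s ≠ c t → G.Adj s t ∨ (s ∈ N ∧ t ∈ N)) :
    (∀ u ∈ N, ∀ v ∈ N, ¬ G.Adj u v) ∧
    ∃ G' : SimpleGraph V, G ≤ G' ∧ (∀ u v, G'.Adj u v → G.Adj u v ∨ (u ∈ N ∧ v ∈ N)) ∧
      ∃ (A : Set V) (c : V → Bool), Apex G' A c := by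
  refine ⟨hN, ⟨fun u v => G.Adj u v ∨ (u ∈ N ∧ v ∈ N ∧ c u ≠ c v), ⟨?_⟩, ⟨?_⟩⟩, ?_, ?_, ?_⟩
  · rintro u v (h | ⟨h1, h2, h3⟩)
    · exact Or.inl h.symm
    · exact Or.inr ⟨h2, h1, h3.symm⟩
  · rintro u (h | ⟨_, _, h⟩)
    · exact G.loopless.irrefl _ h
    · exact h rfl
  · intro u v h
    exact Or.inl h
  · rintro u v (h | ⟨h1, h2, _⟩)
    · exact Or.inl h
    · exact Or.inr ⟨h1, h2⟩
  · refine ⟨A, c, ⟨?_, ?_, ?_⟩⟩
    · rintro u hu v hv (h | ⟨h1, _, _⟩)
      · exact hA u hu v hv h
      · exact hNA u h1 hu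
    · rintro u v hu hv (h | ⟨_, _, h⟩)
      · exact hc u v hu hv h
      · exact h
    · intro p hp s t hs ht hst
      have h1 : ∀ s, (G.Adj p s ∨ (p ∈ N ∧ s ∈ N ∧ c p ≠ c s)) → G.Adj p s := by
        rintro s (h | ⟨h, _, _⟩)
        · exact h
        · exact absurd hp (hNA p h)
      rcases hnb p hp s t (h1 s hs) (h1 t ht) hst with h | ⟨h2, h3⟩
      · exact Or.inl h
      · exact Or.inr ⟨h2, h3, hst⟩

end Comp

variable {VE EE : Type} {en : EE → Bool → VE}

theorem completion_of_col (col : VE → Fin 3)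
    (hcol : ∀ e, col (en e false) ≠ col (en e true)) :
    ∃ N : Set (M VE EE ⊕ D VE EE), (∀ u ∈ N, ∀ v ∈ N, ¬ (gr en).Adj u v) ∧
      ∃ G' : SimpleGraph (M VE EE ⊕ D VE EE), gr en ≤ G' ∧
        (∀ u v, G'.Adj u v → (gr en).Adj u v ∨ (u ∈ N ∧ v ∈ N)) ∧
        ∃ (A : Set (M VE EE ⊕ D VE EE)) (c : M VE EE ⊕ D VE EE → Bool), Apex G' A c := by
  refine ⟨{p | Sum.elim (NN en col) (fun _ => False) p}, valid_of' (gr en) _
    {p | Sum.elim AM (fun _ => True) p} (Sum.elim (cc en col) (fun _ => false)) ?_ ?_ ?_ ?_ ?_⟩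
  · rintro (a | d) ha (b | d') hb h
    · rcases h with h | h
      · exact sol_NN col hcol a b ha hb h
      · exact sol_NN col hcol b a hb ha h
    · exact hb
    · exact ha
    · exact ha
  · rintro (a | d) ha hA
    · exact NN_not_AM col a ha hA
    · exact ha
  · rintro (a | d) ha (b | d') hb h
    · rcases h with h | h
      · exact sol_AM a b ha hb h
      · exact sol_AM b a hb ha h
    · rcases h with rfl | rfl
      · cases d' <;> simp [src, AM] at ha
      · cases d' <;> simp [tgt, AM] at ha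
    · rcases h with rfl | rfl
      · cases d <;> simp [src, AM] at hb
      · cases d <;> simp [tgt, AM] at hb
    · exact h
  · rintro (a | d) (b | d') ha hb h
    · rcases h with h | h
      · exact sol_cc col hcol a b ha hb h
      · exact (sol_cc col hcol b a hb ha h).symm
    · exact absurd trivial hb
    · exact absurd trivial ha
    · exact absurd trivial ha
  · rintro (a | d) ha (s | d1) (t | d2) hs ht hc
    · cases a <;> simp only [Set.mem_ofPred_eq, Sum.elim_inl, AM] at ha
      rename_i k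
      have hb : ∀ s : M VE EE, (gr en).Adj (.inl (.base k)) (.inl s) → ∃ l : Fin 7, s = .base l ∧
          (((k : ℕ), (l : ℕ)) ∈ baseE ∨ ((l : ℕ), (k : ℕ)) ∈ baseE) := by
        rintro (l | _ | _ | _ | _ | _) h
        · exact ⟨l, rfl, h⟩
        · rcases h with h | h <;> exact h.elim
        · rcases h with h | h <;> exact h.elim
        · rcases h with h | h <;> exact h.elim
        · rcases h with h | h <;> exact h.elim
        · rcases h with h | h <;> exact h.elim
      obtain ⟨l, rfl, hl⟩ := hb s hs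
      obtain ⟨m, rfl, hm⟩ := hb t ht
      simp only [Sum.elim_inl, cc] at hc
      exact base_key k l m ha hl hm hc
    · exfalso
      rcases ht with rfl | rfl
      · cases d2 <;> simp [src, AM] at ha
      · cases d2 <;> simp [tgt, AM] at ha
    · exfalso
      rcases hs with rfl | rfl
      · cases d1 <;> simp [src, AM] at ha
      · cases d1 <;> simp [tgt, AM] at ha
    · exact absurd rfl hc
    · right
      have key := dot_ok (en := en) col d
      simp only [Sum.elim_inl] at hc
      rcases key with ⟨h1, h2⟩ | h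
      · rcases hs with rfl | rfl <;> rcases ht with rfl | rfl
        · exact ⟨h1, h1⟩
        · exact ⟨h1, h2⟩
        · exact ⟨h2, h1⟩
        · exact ⟨h2, h2⟩
      · exfalso
        rcases hs with rfl | rfl <;> rcases ht with rfl | rfl
        · exact hc rfl
        · exact hc h
        · exact hc h.symm
        · exact hc rfl
    · exact absurd ht (adj_rr d d2)
    · exact absurd hs (adj_rr d d1)
    · exact absurd hs (adj_rr d d1)


/-! ### The inputs -/

/-- A 3-colouring of the reduction graph (the vertices outside the base gadget). -/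
def colM : M VE EE → Fin 3
  | .base k => match (k : ℕ) with
    | 0 => 2 | 1 => 2 | 2 => 2 | 3 => 0 | 4 => 1 | 5 => 0 | _ => 1
  | .x _ _ => 0
  | .z _ _ => 1
  | .f _ _ => 0
  | .g _ _ _ => 0
  | .y _ b _ => if b = true then 1 else 0

theorem sol_colM (a b : M VE EE) (h : sol a b) : colM a ≠ colM b := by
  cases a <;> cases b <;> simp only [sol] at h
  · rename_i k l
    simp only [colM]
    revert k l
    decide
  · simp [colM]
  · obtain ⟨rfl, rfl, rfl, rfl⟩ := h
    simp [colM]

theorem gr_colorable : (gr en).Colorable 3 := by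
  refine ⟨SimpleGraph.Coloring.mk (Sum.elim colM (fun _ => 2)) ?_⟩
  have h1 : ∀ d : D VE EE, colM (src en d) ≠ 2 ∧ colM (tgt d : M VE EE) ≠ 2 := by
    intro d
    cases d <;> simp only [src, tgt, colM] <;> first
      | decide
      | (constructor
         · simp
         · split_ifs <;> decide)
      | (constructor
         · split_ifs <;> decide
         · simp)
  rintro (a | d) (b | d') h
  · rcases h with h | h
    · exact sol_colM a b h
    · exact (sol_colM b a h).symm
  · simp only [Sum.elim_inl, Sum.elim_inr]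
    rcases h with rfl | rfl
    · exact (h1 d').1
    · exact (h1 d').2
  · simp only [Sum.elim_inl, Sum.elim_inr]
    rcases h with rfl | rfl
    · exact (h1 d).1.symm
    · exact (h1 d).2.symm
  · exact absurd h (adj_rr d d')

/-- The rank of a main vertex in an ordering of degeneracy two. -/
def rkM : M VE EE → ℕ
  | .base k => match (k : ℕ) with
    | 0 => 6 | 1 => 2 | 2 => 3 | 3 => 4 | 4 => 5 | 5 => 0 | _ => 1
  | .x _ _ => 7
  | .z _ _ => 8
  | .f _ _ => 7
  | .g _ _ _ => 7
  | .y _ b _ => if b = true then 8 else 7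

/-- `G` is 2-degenerate: for some ranks, adjacent vertices have different ranks and every vertex
has at most two neighbours of smaller rank. -/
def TwoDegenerate {V : Type*} (G : SimpleGraph V) : Prop :=
  ∃ r : V → ℕ, (∀ u v, G.Adj u v → r u ≠ r v) ∧ ∀ v, {u | G.Adj u v ∧ r u < r v}.encard ≤ 2

theorem TwoDegenerate.iso {V W : Type*} {G : SimpleGraph V} {H : SimpleGraph W} (e : G ≃g H)
    (h : TwoDegenerate G) : TwoDegenerate H := by
  obtain ⟨r, h1, h2⟩ := h
  refine ⟨fun w => r (e.symm w), fun u v huv => h1 _ _ (e.symm.map_rel_iff.2 huv), fun v => ?_⟩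
  refine le_trans ?_ (h2 (e.symm v))
  have : {u | H.Adj u v ∧ r (e.symm u) < r (e.symm v)} =
      e '' {u | G.Adj u (e.symm v) ∧ r u < r (e.symm v)} := by
    ext u
    simp only [Set.mem_setOf_eq, Set.mem_image]
    constructor
    · rintro ⟨h3, h4⟩
      exact ⟨e.symm u, ⟨e.symm.map_rel_iff.2 h3, h4⟩, by simp⟩
    · rintro ⟨x, ⟨h3, h4⟩, rfl⟩
      refine ⟨?_, by simpa using h4⟩
      have := e.map_rel_iff.2 h3
      simpa using this
  rw [this]
  exact Set.encard_image_le _ _

end Pool.Agent.Y537.PP
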