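import Pool.Agent.Y537.PP.Comp

/-!
# The reduction graphs are 2-degenerate
-/

namespace Pool.Agent.Y537.PP

open Pool.Agent.H515R2.PP

variable {VE EE : Type} {en : EE → Bool → VE}

/-- ranks of the base gadget -/
def rkB (k : Fin 7) : ℕ := rkM (VE := Unit) (EE := Unit) (.base k)

theorem rkM_base (k : Fin 7) : rkM (VE := VE) (EE := EE) (.base k) = rkB k := rfl

theorem base_back : ∀ k : Fin 7, (Finset.univ.filter fun l : Fin 7 =>
    (((l : ℕ), (k : ℕ)) ∈ baseE ∨ ((k : ℕ), (l : ℕ)) ∈ baseE) ∧ rkB l < rkB k).card ≤ 2 := by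
  unfold baseE
  decide

theorem sol_rk (a b : M VE EE) (h : sol a b) : rkM a ≠ rkM b := by
  cases a <;> cases b <;> simp only [sol] at h
  · rename_i k l
    simp only [rkM]
    revert k l
    decide
  · simp [rkM]
  · obtain ⟨rfl, rfl, rfl, rfl⟩ := h
    simp [rkM]

theorem rkM_lt (a : M VE EE) : rkM a < 9 := by
  cases a <;> simp only [rkM]
  · split <;> norm_num
  · norm_num
  · norm_num
  · norm_num
  · norm_num
  · split_ifs <;> norm_num

/-- the rank of a vertex of the reduction graph -/
def rkA : M VE EE ⊕ D VE EE → ℕ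
  | .inl a => rkM a
  | .inr _ => 9

theorem gr_twoDegenerate : TwoDegenerate (gr en) := by
  classical
  refine ⟨rkA, ?_, ?_⟩
  · rintro (a | d) (b | d') h
    · rcases h with h | h
      · exact sol_rk a b h
      · exact (sol_rk b a h).symm
    · exact (rkM_lt a).ne
    · exact (rkM_lt b).ne'
    · exact absurd h (adj_rr d d')
  · have two : ∀ {W : Type} (s : Set W) (a b : W), s ⊆ {a, b} → s.encard ≤ 2 := by
      intro W s a b h
      refine (Set.encard_le_encard h).trans ((Set.encard_insert_le _ _).trans ?_)
      rw [Set.encard_singleton]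
      norm_num
    rintro (a | d)
    · have hsub : {u : M VE EE ⊕ D VE EE | (gr en).Adj u (.inl a) ∧
          rkA u < rkA (.inl a : M VE EE ⊕ D VE EE)} ⊆
          Sum.inl '' {b : M VE EE | (sol b a ∨ sol a b) ∧ rkM b < rkM a} := by
        rintro (b | d) ⟨h1, h2⟩
        · exact ⟨b, ⟨h1, h2⟩, rfl⟩
        · have := rkM_lt a
          have h3 : 9 < rkM a := h2
          omega
      refine (Set.encard_le_encard hsub).trans ((Set.encard_image_le _ _).trans ?_)
      cases a with
      | base k =>
        have h3 : {b : M VE EE | (sol b (.base k) ∨ sol (.base k) b) ∧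
            rkM b < rkM (.base k : M VE EE)} ⊆
            M.base '' (((Finset.univ.filter fun l : Fin 7 =>
              (((l : ℕ), (k : ℕ)) ∈ baseE ∨ ((k : ℕ), (l : ℕ)) ∈ baseE) ∧ rkB l < rkB k) :
                Finset (Fin 7)) : Set (Fin 7)) := by
          rintro (l | _ | _ | _ | _ | _) ⟨h1, h2⟩
          · exact ⟨l, by simpa using ⟨h1, h2⟩, rfl⟩
          · rcases h1 with h1 | h1 <;> exact h1.elim
          · rcases h1 with h1 | h1 <;> exact h1.elim
          · rcases h1 with h1 | h1 <;> exact h1.elim
          · rcases h1 with h1 | h1 <;> exact h1.elim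
          · rcases h1 with h1 | h1 <;> exact h1.elim
        refine (Set.encard_le_encard h3).trans ((Set.encard_image_le _ _).trans ?_)
        rw [Set.encard_coe_eq_coe_finsetCard]
        exact_mod_cast base_back k
      | x u i =>
        refine two _ (.z u i) (.z u i) ?_
        rintro (l | _ | _ | _ | _ | _) ⟨h1, h2⟩ <;> rcases h1 with h1 | h1 <;>
          first
            | exact h1.elim
            | (obtain ⟨rfl, rfl⟩ := h1; simp)
      | z u i =>
        refine two _ (.x u i) (.x u i) ?_
        rintro (l | _ | _ | _ | _ | _) ⟨h1, h2⟩ <;> rcases h1 with h1 | h1 <;>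
          first
            | exact h1.elim
            | (obtain ⟨rfl, rfl⟩ := h1; simp)
      | f u j =>
        refine two _ (.f u j) (.f u j) ?_
        rintro (l | _ | _ | _ | _ | _) ⟨h1, h2⟩ <;> rcases h1 with h1 | h1 <;> exact h1.elim
      | g e b i =>
        refine two _ (.g e b i) (.g e b i) ?_
        rintro (l | _ | _ | _ | _ | _) ⟨h1, h2⟩ <;> rcases h1 with h1 | h1 <;> exact h1.elim
      | y e b i =>
        refine two _ (.y e false i) (.y e true i) ?_
        rintro (l | _ | _ | _ | _ | _) ⟨h1, h2⟩ <;> rcases h1 with h1 | h1 <;>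
          first
            | exact h1.elim
            | (obtain ⟨rfl, rfl, rfl, rfl⟩ := h1; simp)
    · refine two _ (.inl (src en d)) (.inl (tgt d)) ?_
      rintro (b | d') ⟨h1, h2⟩
      · rcases h1 with rfl | rfl
        · simp
        · simp
      · exact absurd h1 (adj_rr d' d)

end Pool.Agent.Y537.PP
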