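import Pool.Agent.Y537.PP.Comp

/-!
# Comparability graphs are perfect (Mirsky)
-/

namespace Pool.Agent.Y537.PP

open Pool.Agent.H515R2.PP

variable {V : Type*}

theorem Comparability.induce {G : SimpleGraph V} (h : Comparability G) (s : Set V) :
    Comparability (G.induce s) := by
  obtain ⟨r, h1, h2, h3⟩ := h
  exact ⟨fun a b => r a b, fun a => h1 a, fun a b c => h2 a b c, fun a b => h3 a b⟩

theorem comparability_chi [Finite V] {G : SimpleGraph V} (h : Comparability G) :
    G.chromaticNumber = (G.cliqueNum : ℕ∞) := by
  classical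
  have := Fintype.ofFinite V
  obtain ⟨r, h1, h2, h3⟩ := h
  apply le_antisymm _ G.cliqueNum_le_chromaticNumber
  rw [SimpleGraph.chromaticNumber_le_iff_colorable]
  -- chains with largest element `v`
  let F : V → Finset (Finset V) := fun v =>
    Finset.univ.filter fun s => G.IsClique (s : Set V) ∧ v ∈ s ∧ ∀ x ∈ s, x = v ∨ r x v
  let H : V → ℕ := fun v => (F v).sup Finset.card
  have hmem : ∀ v s, s ∈ F v ↔ (G.IsClique (s : Set V) ∧ v ∈ s ∧ ∀ x ∈ s, x = v ∨ r x v) := by
    intro v s
    simp [F]
  have hsing : ∀ v, {v} ∈ F v := by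
    intro v
    rw [hmem]
    refine ⟨by simp, by simp, ?_⟩
    intro x hx
    rw [Finset.mem_singleton] at hx
    exact Or.inl hx
  have hpos : ∀ v, 1 ≤ H v := by
    intro v
    have := Finset.le_sup (f := Finset.card) (hsing v)
    rw [Finset.card_singleton] at this
    exact this
  have hle : ∀ v, H v ≤ G.cliqueNum := by
    intro v
    refine Finset.sup_le fun s hs => ?_
    exact ((hmem v s).1 hs).1.card_le_cliqueNum
  have hlt : ∀ u v, r u v → H u < H v := by
    intro u v huv
    obtain ⟨s, hs, hsc⟩ := Finset.exists_mem_eq_sup (F u) ⟨_, hsing u⟩ Finset.card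
    obtain ⟨k1, k2, k3⟩ := (hmem u s).1 hs
    have hrv : ∀ x ∈ s, r x v := by
      intro x hx
      rcases k3 x hx with rfl | h
      · exact huv
      · exact h2 _ _ _ h huv
    have hv : v ∉ s := fun hv => h1 v (hrv v hv)
    have hins : insert v s ∈ F v := by
      rw [hmem]
      refine ⟨?_, Finset.mem_insert_self _ _, ?_⟩
      · rw [Finset.coe_insert, SimpleGraph.isClique_insert]
        refine ⟨k1, fun x hx _ => (h3 v x).2 (Or.inr (hrv x hx))⟩
      · intro x hx
        rcases Finset.mem_insert.1 hx with h | h
        · exact Or.inl h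
        · exact Or.inr (hrv x h)
    have h5 := Finset.le_sup (f := Finset.card) hins
    rw [Finset.card_insert_of_notMem hv] at h5
    have h6 : H u = s.card := hsc
    have h7 : s.card + 1 ≤ H v := h5
    omega
  refine ⟨SimpleGraph.Coloring.mk (fun v => (⟨H v - 1, ?_⟩ : Fin G.cliqueNum)) ?_⟩
  · have := hpos v
    have := hle v
    omega
  · intro u v huv heq
    rw [Fin.mk.injEq] at heq
    have a1 := hpos u
    have a2 := hpos v
    rcases (h3 u v).1 huv with h | h
    · have := hlt u v h
      omega
    · have := hlt v u h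
      omega

/-- Comparability graphs are perfect. -/
theorem Comparability.perfect [Finite V] {G : SimpleGraph V} (h : Comparability G) : Perfect G :=
  fun s => comparability_chi (h.induce s)

end Pool.Agent.Y537.PP
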