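import Pool.Agent.Y537.PP.Degen
import Pool.Agent.Y537.PP.Mirsky

/-!
# Assembly
-/

namespace Pool.Agent.Y537.PP

open Pool.Agent.NPC Pool.Agent.H622R2 Pool.Agent.H692R2 Pool.Agent.H515R2.PP

section Probe

variable {V W : Type*}

/-- `G` is a probe graph of the class `C` of graphs with the same vertex set: there are an
independent set `N` and edges between vertices of `N` whose addition gives a member of `C`. -/
def ProbeOf (C : SimpleGraph V → Prop) (G : SimpleGraph V) : Prop :=
  ∃ N : Set V, (∀ u ∈ N, ∀ v ∈ N, ¬ G.Adj u v) ∧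
    ∃ G' : SimpleGraph V, G ≤ G' ∧ (∀ u v, G'.Adj u v → G.Adj u v ∨ (u ∈ N ∧ v ∈ N)) ∧ C G'

theorem ProbeOf.mono {C C' : SimpleGraph V → Prop} (h : ∀ G, C G → C' G) {G : SimpleGraph V}
    (hG : ProbeOf C G) : ProbeOf C' G := by
  obtain ⟨N, hN, G', h1, h2, h3⟩ := hG
  exact ⟨N, hN, G', h1, h2, h _ h3⟩

theorem ProbeOf.iso {C : SimpleGraph V → Prop} {C' : SimpleGraph W → Prop}
    {G : SimpleGraph V} {H : SimpleGraph W} (e : G ≃g H)
    (hC : ∀ (G' : SimpleGraph V) (H' : SimpleGraph W), (G' ≃g H') → C G' → C' H')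
    (h : ProbeOf C G) : ProbeOf C' H := by
  obtain ⟨N, hN, G', hle, hE, hP⟩ := h
  refine ⟨e.symm ⁻¹' N, ?_, G'.comap e.symm, ?_, ?_, ?_⟩
  · intro u hu v hv h
    exact hN _ hu _ hv (e.symm.map_rel_iff.2 h)
  · intro u v h
    exact hle (e.symm.map_rel_iff.2 h)
  · intro u v h
    rcases hE _ _ h with h | h
    · exact Or.inl (e.symm.map_rel_iff.1 h)
    · exact Or.inr h
  · refine hC G' _ ⟨e.toEquiv, ?_⟩ hP
    intro a b
    simp

/-- Comparability graphs of partial orders of height at most three. -/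
def Comp3 (G : SimpleGraph V) : Prop := Comparability G ∧ G.Colorable 3

end Probe

theorem outG_yes (E : List (ℕ × ℕ)) (h : Col 3 E) : ProbeOf Comp3 (outG E) := by
  obtain ⟨e⟩ := exists_iso E
  obtain ⟨c, hc⟩ := h
  have h1 : ProbeOf Comp3 (gr (en E)) := by
    obtain ⟨N, hN, G', h1, h2, A, c, hA⟩ := completion_of_col (en := en E)
      (fun u => c u.1) (fun e => hc E[e] (List.getElem_mem _))
    exact ⟨N, hN, G', h1, h2, apex_comparability hA, apex_colorable hA⟩
  exact h1.iso e.symm (fun G' H' f h => ⟨h.1.iso f, colorable_iso f h.2⟩)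

theorem outG_no (E : List (ℕ × ℕ)) (h : ProbeOf NoHoles (outG E)) : Col 3 E := by
  obtain ⟨e⟩ := exists_iso E
  have h1 : ProbeOf NoHoles (gr (en E)) := h.iso e (fun G' H' f h => h.iso f)
  obtain ⟨N, hN, G', h1, h2, h3⟩ := h1
  obtain ⟨c, hc⟩ := col_of_noHoles hN h1 h2 h3
  classical
  refine ⟨fun n => if h : n ∈ vl E then c ⟨n, h⟩ else 0, fun p hp => ?_⟩
  obtain ⟨i, hi, rfl⟩ := List.getElem_of_mem hp
  have h1 : E[i].1 ∈ vl E := (mem_vl E _).2 ⟨E[i], hp, Or.inl rfl⟩
  have h2 : E[i].2 ∈ vl E := (mem_vl E _).2 ⟨E[i], hp, Or.inr rfl⟩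
  simp only [dif_pos h1, dif_pos h2]
  exact hc ⟨i, hi⟩

theorem outG_inputs (E : List (ℕ × ℕ)) : (outG E).Colorable 3 ∧ TwoDegenerate (outG E) := by
  obtain ⟨e⟩ := exists_iso E
  exact ⟨colorable_iso e.symm gr_colorable, TwoDegenerate.iso e.symm gr_twoDegenerate⟩

theorem outF_all (E : List (ℕ × ℕ)) :
    ((outF E).graph.Colorable 3 ∧ TwoDegenerate (outF E).graph) ∧
    (Col 3 E → ProbeOf Comp3 (outF E).graph) ∧ (ProbeOf NoHoles (outF E).graph → Col 3 E) := by
  unfold outF
  dsimp only
  exact ⟨outG_inputs E, outG_yes E, outG_no E⟩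

/-- Transfer of hardness in the form of a gap. -/
theorem gap_aux {α β : Type} [TEnc α] [TEnc β] {P : α → Prop} (hP : HardI P) {f : α → β}
    (hf : NPC.Poly f) (Q Y N : β → Prop)
    (h : ∀ a, Q (f a) ∧ (P a → Y (f a)) ∧ (N (f a) → P a)) (L : Set (List Bool)) (hL : InNP L) :
    ∃ F : List Bool → β, PolyTime (fun x => bits (F x)) ∧ (∀ x, Q (F x)) ∧
      (∀ x, x ∈ L → Y (F x)) ∧ (∀ x, x ∉ L → ¬ N (F x)) := by
  obtain ⟨g, hg, hgL⟩ := hP L hL
  refine ⟨fun x => f (g x), PC.toPolyTime_bits hf g hg, fun x => (h _).1, ?_, ?_⟩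
  · intro x hx
    exact (h _).2.1 ((hgL x).1 hx)
  · intro x hx hN
    exact hx ((hgL x).2 ((h _).2.2 hN))

/-- The reduction, for all problems in `NP`. -/
theorem main (L : Set (List Bool)) (hL : InNP L) :
    ∃ f : List Bool → FinGraph, PolyTime (fun x => bits (f x)) ∧
      (∀ x, (f x).graph.Colorable 3 ∧ TwoDegenerate (f x).graph) ∧
      (∀ x, x ∈ L → ProbeOf Comp3 (f x).graph) ∧
      (∀ x, x ∉ L → ¬ ProbeOf NoHoles (f x).graph) :=
  gap_aux hardPr_col3.toHardI poly_outF
    (fun G : FinGraph => G.graph.Colorable 3 ∧ TwoDegenerate G.graph)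
    (fun G : FinGraph => ProbeOf Comp3 G.graph)
    (fun G : FinGraph => ProbeOf NoHoles G.graph) outF_all L hL

/-- Polynomial-time algorithms for classes in between. -/
theorem main_alg (C : (n : ℕ) → SimpleGraph (Fin n) → Prop)
    (h1 : ∀ n (G : SimpleGraph (Fin n)), Comparability G → G.Colorable 3 → C n G)
    (h2 : ∀ n (G : SimpleGraph (Fin n)), C n G → NoHoles G)
    (h : ∃ A : List Bool → List Bool, PolyTime A ∧ ∀ (n : ℕ) (G : SimpleGraph (Fin n)),
      G.Colorable 3 → TwoDegenerate G → (A (bits (⟨n, G⟩ : FinGraph)) = [true] ↔ ProbeOf (C n) G)) :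
    ∀ L : Set (List Bool), InNP L → InClassP L := by
  intro L hL
  obtain ⟨A, hA, hA'⟩ := h
  obtain ⟨f, hf, hf1, hf2, hf3⟩ := main L hL
  refine ⟨fun x => A (bits (f x)), Pool.Agent.H642R2.TMSim.polyTime_comp hA hf, fun x => ?_⟩
  have key := hA' (f x).n (f x).graph (hf1 x).1 (hf1 x).2
  constructor
  · intro hx
    exact key.2 ((hf2 x hx).mono (fun G hG => h1 _ G hG.1 hG.2))
  · intro hx
    by_contra hcon
    exact hf3 x hcon ((key.1 hx).mono (fun G hG => h2 _ G hG))

section Classes

variable {V : Type*}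

/-- `G` is perfectly orderable (Chvatal): for some linear order, given by an injective rank, there
is no induced path `a b c d` with `a` before `b` and `d` before `c`. -/
def PerfectlyOrderable (G : SimpleGraph V) : Prop :=
  ∃ r : V → ℕ, Function.Injective r ∧ ∀ a b c d, G.Adj a b → G.Adj b c → G.Adj c d →
    a ≠ c → b ≠ d → a ≠ d → ¬ G.Adj a c → ¬ G.Adj b d → ¬ G.Adj a d → ¬ (r a < r b ∧ r d < r c)

/-- `G` has no odd hole. -/
def NoOddHole (G : SimpleGraph V) : Prop :=
  ∀ m : ℕ, 5 ≤ m → m % 2 = 1 → IsEmpty (SimpleGraph.cycleGraph m ↪g G)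

theorem NoOddHole.noHoles {G : SimpleGraph V} (h : NoOddHole G) : NoHoles G := by
  intro m hm
  exact h m (by omega) (by omega)

theorem PerfectlyOrderable.noHoles {G : SimpleGraph V} (h : PerfectlyOrderable G) :
    NoHoles G := by
  obtain ⟨r, hr, h⟩ := h
  intro m hm
  refine ⟨fun e => ?_⟩
  obtain ⟨v, hv⟩ := pat_of_emb hm e
  have hm5 : 5 ≤ m := by omega
  -- the vertices in cyclic order
  have hadj : ∀ i j, i < m → j < m → (G.Adj (v i) (v j) ↔ (j = i + 1 ∨ i = j + 1 ∨
      (i = 0 ∧ j = m - 1) ∨ (j = 0 ∧ i = m - 1))) := by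
    intro i j hi hj
    rcases lt_trichotomy i j with h1 | h1 | h1
    · rw [hv i j h1 hj]
      constructor
      · rintro (h2 | h2)
        · exact Or.inl h2
        · exact Or.inr (Or.inr (Or.inl h2))
      · intro h2
        omega
    · subst h1
      constructor
      · intro h2
        exact absurd h2 (G.loopless.irrefl _)
      · intro h2
        omega
    · rw [SimpleGraph.adj_comm, hv j i h1 hi]
      constructor
      · rintro (h2 | h2)
        · exact Or.inr (Or.inl h2)
        · exact Or.inr (Or.inr (Or.inr h2))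
      · intro h2
        omega
  have hinj : ∀ i j, i < m → j < m → i ≠ j → v i ≠ v j := by
    intro i j hi hj hij
    rcases lt_or_gt_of_ne hij with h1 | h1
    · exact hv.inj hm5 _ _ h1 hj
    · exact (hv.inj hm5 _ _ h1 hi).symm
  let w : ℕ → V := fun i => v (i % m)
  have hstep : ∀ i, r (w i) < r (w (i + 1)) → r (w (i + 2)) < r (w (i + 3)) := by
    intro i hi
    have l0 : i % m < m := Nat.mod_lt _ (by omega)
    have l1 : (i + 1) % m < m := Nat.mod_lt _ (by omega)
    have l2 : (i + 2) % m < m := Nat.mod_lt _ (by omega)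
    have l3 : (i + 3) % m < m := Nat.mod_lt _ (by omega)
    have e1 : (i + 1) % m = if i % m + 1 = m then 0 else i % m + 1 := by
      rcases hm with rfl | rfl | rfl <;> split_ifs <;> omega
    have e2 : (i + 2) % m = if (i + 1) % m + 1 = m then 0 else (i + 1) % m + 1 := by
      rcases hm with rfl | rfl | rfl <;> split_ifs <;> omega
    have e3 : (i + 3) % m = if (i + 2) % m + 1 = m then 0 else (i + 2) % m + 1 := by
      rcases hm with rfl | rfl | rfl <;> split_ifs <;> omega
    by_contra hcon
    push Not at hcon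
    have hne : r (w (i + 3)) ≠ r (w (i + 2)) := by
      intro h5
      refine hinj ((i + 3) % m) ((i + 2) % m) l3 l2 ?_ (hr h5)
      split_ifs at e3 <;> omega
    have hlt : r (w (i + 3)) < r (w (i + 2)) := lt_of_le_of_ne hcon hne
    refine h (w i) (w (i + 1)) (w (i + 2)) (w (i + 3)) ?_ ?_ ?_ ?_ ?_ ?_ ?_ ?_ ?_ ⟨hi, hlt⟩
    · rw [hadj _ _ l0 l1]
      split_ifs at e1 <;> omega
    · rw [hadj _ _ l1 l2]
      split_ifs at e2 <;> omega
    · rw [hadj _ _ l2 l3]
      split_ifs at e3 <;> omega
    · refine hinj _ _ l0 l2 ?_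
      split_ifs at e1 e2 <;> omega
    · refine hinj _ _ l1 l3 ?_
      split_ifs at e2 e3 <;> omega
    · refine hinj _ _ l0 l3 ?_
      split_ifs at e1 e2 e3 <;> omega
    · rw [hadj _ _ l0 l2]
      split_ifs at e1 e2 <;> omega
    · rw [hadj _ _ l1 l3]
      split_ifs at e2 e3 <;> omega
    · rw [hadj _ _ l0 l3]
      split_ifs at e1 e2 e3 <;> omega
  have hper : ∀ i, w (i + m) = w i := by
    intro i
    simp only [w, Nat.add_mod_right]
  have hstep2 : ∀ j i, r (w i) < r (w (i + 1)) → r (w (i + 2 * j)) < r (w (i + 2 * j + 1)) := by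
    intro j
    induction j with
    | zero => intro i hi; simpa using hi
    | succ j ih =>
      intro i hi
      have := hstep _ (ih i hi)
      have e1 : i + 2 * (j + 1) = i + 2 * j + 2 := by ring
      rw [e1]
      exact this
  -- if one step goes up then all do
  have hall : ∀ i, r (w i) < r (w (i + 1)) → ∀ j, r (w (i + j)) < r (w (i + j + 1)) := by
    intro i hi j
    rcases Nat.even_or_odd' j with ⟨k, rfl | rfl⟩
    · exact hstep2 k i hi
    · have h5 := hstep2 ((m + 1) / 2 + k) i hi
      have e1 : i + 2 * ((m + 1) / 2 + k) = (i + (2 * k + 1)) + m := by omega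
      rw [e1] at h5
      have e2 : (i + (2 * k + 1)) + m + 1 = (i + (2 * k + 1) + 1) + m := by ring
      rw [e2, hper, hper] at h5
      exact h5
  have hne : ∀ i, r (w i) ≠ r (w (i + 1)) := by
    intro i h5
    refine hinj (i % m) ((i + 1) % m) (Nat.mod_lt _ (by omega)) (Nat.mod_lt _ (by omega)) ?_
      (hr h5)
    rcases hm with rfl | rfl | rfl <;> omega
  by_cases hup : ∃ i, r (w i) < r (w (i + 1))
  · obtain ⟨i, hi⟩ := hup
    have h5 := hall i hi
    have h6 : ∀ j, r (w i) + j ≤ r (w (i + j)) := by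
      intro j
      induction j with
      | zero => simp
      | succ j ih =>
        have := h5 j
        have e : i + (j + 1) = i + j + 1 := by ring
        rw [e]
        omega
    have h7 := h6 m
    rw [hper] at h7
    omega
  · push Not at hup
    have h5 : ∀ i, r (w (i + 1)) < r (w i) := fun i => lt_of_le_of_ne (hup i) (hne i).symm
    have h6 : ∀ j, r (w j) + j ≤ r (w 0) := by
      intro j
      induction j with
      | zero => simp
      | succ j ih =>
        have := h5 j
        omega
    have h7 := h6 m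
    have h8 := hper 0
    rw [Nat.zero_add] at h8
    rw [h8] at h7
    omega

theorem Comparability.perfectlyOrderable [Finite V] {G : SimpleGraph V} (h : Comparability G) :
    PerfectlyOrderable G := by
  classical
  have := Fintype.ofFinite V
  obtain ⟨r, h1, h2, h3⟩ := h
  -- rank: number of smaller elements, with ties broken arbitrarily
  let e := Fintype.equivFin V
  let N := Fintype.card V
  let d : V → ℕ := fun v => (Finset.univ.filter fun x => r x v).card
  refine ⟨fun v => d v * N + e v, ?_, ?_⟩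
  · intro a b hab
    have ha := (e a).2
    have hb := (e b).2
    have hab' : d a * N + e a = d b * N + e b := hab
    have h4 : (e a : ℕ) = e b := by
      have := congrArg (· % N) hab'
      simp only [Nat.mul_add_mod'] at this
      rwa [Nat.mod_eq_of_lt ha, Nat.mod_eq_of_lt hb] at this
    exact e.injective (Fin.ext h4)
  · have key : ∀ a b, r a b → d a * N + e a < d b * N + e b := by
      intro a b hab
      have h4 : d a < d b := by
        apply Finset.card_lt_card
        rw [Finset.ssubset_iff_of_subset]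
        · exact ⟨a, by simpa using hab, by simpa using h1 a⟩
        · intro x hx
          simp only [Finset.mem_filter, Finset.mem_univ, true_and] at hx ⊢
          exact h2 _ _ _ hx hab
      have h5 : (d a + 1) * N ≤ d b * N := Nat.mul_le_mul_right _ h4
      have ha := (e a).2
      have : (d a + 1) * N = d a * N + N := by ring
      omega
    have key2 : ∀ a b, G.Adj a b → d a * N + e a < d b * N + e b → r a b := by
      intro a b hab hlt
      rcases (h3 a b).1 hab with h | h
      · exact h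
      · have := key b a h
        omega
    rintro a b c d' hab hbc hcd - - - hac hbd - ⟨h4, h5⟩
    have r1 := key2 a b hab h4
    have r2 := key2 d' c hcd.symm h5
    rcases (h3 b c).1 hbc with h | h
    · exact hac ((h3 a c).2 (Or.inl (h2 _ _ _ r1 h)))
    · exact hbd ((h3 b d').2 (Or.inr (h2 _ _ _ r2 h)))

end Classes

end Pool.Agent.Y537.PP
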