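import Pool.Agent.H515R2.PP.Final

/-!
# Probe graphs of classes without the holes of length 5, 9, 13

Adaptation of the soundness part of `Pool/Agent/H515R2/PP`: instead of perfection only the absence
of induced cycles of length 5, 9 and 13 is used.
-/

namespace Pool.Agent.Y537.PP

open Pool.Agent.H515R2.PP

section Cyc

variable {V : Type*}

/-- The pattern of an induced cycle of length `m`, as a map of the natural numbers. -/
def Pat (G : SimpleGraph V) (m : ℕ) (v : ℕ → V) : Prop :=
  ∀ i j, i < j → j < m → (G.Adj (v i) (v j) ↔ (j = i + 1 ∨ (i = 0 ∧ j = m - 1)))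

theorem Pat.inj {G : SimpleGraph V} {m : ℕ} {v : ℕ → V} (h : Pat G m v) (hm : 5 ≤ m)
    (i j : ℕ) (hij : i < j) (hj : j < m) : v i ≠ v j := by
  intro he
  have h1 : ¬ (j = i + 1 ∨ (i = 0 ∧ j = m - 1)) := by
    intro h2
    have := (h i j hij hj).2 h2
    rw [he] at this
    exact G.loopless.irrefl _ this
  by_cases hj1 : j + 1 < m
  · have h2 := (h j (j + 1) (by omega) hj1).2 (Or.inl rfl)
    rw [← he] at h2
    have h3 := (h i (j + 1) (by omega) hj1).1 h2
    have h4 := (h (j - 1) j (by omega) hj).2 (Or.inl (by omega))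
    rw [← he] at h4
    have h5 := (h i (j - 1) (by omega) (by omega)).1 h4.symm
    omega
  · have h2 := (h 0 j (by omega) hj).2 (Or.inr ⟨rfl, by omega⟩)
    rw [← he] at h2
    have h3 := (h 0 i (by omega) (by omega)).1 h2
    have h4 := (h (j - 1) j (by omega) hj).2 (Or.inl (by omega))
    rw [← he] at h4
    have h5 := (h i (j - 1) (by omega) (by omega)).1 h4.symm
    omega

theorem cyc_adj_iff (m : ℕ) (hm : m = 5 ∨ m = 9 ∨ m = 13) (i j : Fin m) (hij : i.1 < j.1) :
    (SimpleGraph.cycleGraph m).Adj i j ↔ (j.1 = i.1 + 1 ∨ (i.1 = 0 ∧ j.1 = m - 1)) := by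
  rw [SimpleGraph.cycleGraph_adj']
  have hi := i.2
  have hj := j.2
  rw [Fin.sub_def, Fin.sub_def]
  simp only
  rcases hm with rfl | rfl | rfl <;> omega

/-- A pattern gives an induced cycle. -/
theorem Pat.emb {G : SimpleGraph V} {m : ℕ} {v : ℕ → V} (h : Pat G m v)
    (hm : m = 5 ∨ m = 9 ∨ m = 13) : Nonempty (SimpleGraph.cycleGraph m ↪g G) := by
  have hm5 : 5 ≤ m := by omega
  refine ⟨⟨⟨fun i => v i, ?_⟩, ?_⟩⟩
  · intro i j hij
    by_contra hne
    rcases lt_trichotomy i.1 j.1 with h1 | h1 | h1
    · exact h.inj hm5 _ _ h1 j.2 hij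
    · exact hne (Fin.ext h1)
    · exact h.inj hm5 _ _ h1 i.2 hij.symm
  · intro i j
    rcases lt_trichotomy i.1 j.1 with h1 | h1 | h1
    · rw [cyc_adj_iff m hm i j h1]
      exact h _ _ h1 j.2
    · rw [Fin.ext h1]
      exact ⟨fun hh => (G.loopless.irrefl _ hh).elim,
        fun hh => ((SimpleGraph.cycleGraph m).loopless.irrefl _ hh).elim⟩
    · rw [SimpleGraph.adj_comm, SimpleGraph.adj_comm _ i j, cyc_adj_iff m hm j i h1]
      exact h _ _ h1 i.2

/-- An induced cycle gives a pattern. -/
theorem pat_of_emb {G : SimpleGraph V} {m : ℕ} (hm : m = 5 ∨ m = 9 ∨ m = 13)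
    (e : SimpleGraph.cycleGraph m ↪g G) :
    ∃ v : ℕ → V, Pat G m v := by
  have h0 : 0 < m := by omega
  refine ⟨fun n => if h : n < m then e ⟨n, h⟩ else e ⟨0, h0⟩, ?_⟩
  intro i j hij hj
  have hi : i < m := by omega
  simp only [hi, hj, dif_pos]
  rw [e.map_rel_iff, cyc_adj_iff m hm _ _ hij]

/-- No induced cycle of length 5, 9 or 13. -/
def NoHoles (G : SimpleGraph V) : Prop :=
  ∀ m : ℕ, m = 5 ∨ m = 9 ∨ m = 13 → IsEmpty (SimpleGraph.cycleGraph m ↪g G)

theorem NoHoles.pat {G : SimpleGraph V} (h : NoHoles G) {m : ℕ} (hm : m = 5 ∨ m = 9 ∨ m = 13)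
    (v : ℕ → V) : ¬ Pat G m v := by
  intro hp
  obtain ⟨e⟩ := hp.emb hm
  exact (h m hm).false e

theorem noHoles_of_perfect {G : SimpleGraph V} (h : Perfect G) : NoHoles G := by
  intro m hm
  refine ⟨fun e => ?_⟩
  obtain ⟨v, hv⟩ := pat_of_emb hm e
  exact no_odd_hole G h m (by omega) (by omega) v hv

theorem NoHoles.iso {W : Type*} {G : SimpleGraph V} {H : SimpleGraph W} (e : G ≃g H)
    (h : NoHoles G) : NoHoles H :=
  fun m hm => ⟨fun f => (h m hm).false (f.trans e.symm.toEmbedding)⟩

/-- An even path of length `4 k`, `k ≤ 3`, whose vertices are adjacent only along the path or when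
both positions are divisible by four, with adjacent ends, gives a hole of length 5, 9, 13. -/
theorem path_lemma3 (G : SimpleGraph V) (hG : NoHoles G) (k : ℕ) :
    ∀ (v : ℕ → V), 1 ≤ k → k ≤ 3 → (∀ i j, i ≤ 4 * k → j ≤ 4 * k → v i = v j → i = j) →
    (∀ i < 4 * k, G.Adj (v i) (v (i + 1))) →
    (∀ i j, i + 1 < j → j ≤ 4 * k → G.Adj (v i) (v j) → i % 4 = 0 ∧ j % 4 = 0) →
    G.Adj (v 0) (v (4 * k)) → False := by
  induction k using Nat.strong_induction_on with
  | _ k ih =>
    intro v hk hk3 hinj hstep hno hend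
    by_cases hex : ∃ i j, i < j ∧ j ≤ k ∧ (i, j) ≠ (0, k) ∧ G.Adj (v (4 * i)) (v (4 * j))
    · obtain ⟨i, j, hij, hjk, hne, hadj⟩ := hex
      have hlt : j - i < k := by
        rcases Nat.eq_zero_or_pos i with h | h
        · subst h
          have : j ≠ k := fun h => hne (by rw [h])
          omega
        · omega
      refine ih (j - i) hlt (fun n => v (4 * i + n)) (by omega) (by omega) ?_ ?_ ?_ ?_
      · intro a b ha hb hab
        have := hinj _ _ (by omega) (by omega) hab
        omega
      · intro a ha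
        exact hstep (4 * i + a) (by omega)
      · intro a b hab hb h
        have := hno _ _ (by omega) (by omega) h
        omega
      · have e : 4 * i + 4 * (j - i) = 4 * j := by omega
        simpa [e] using hadj
    · push Not at hex
      refine hG.pat (m := 4 * k + 1) (by omega) v ?_
      intro i j hij hj
      constructor
      · intro h
        by_cases h1 : j = i + 1
        · exact Or.inl h1
        · obtain ⟨h2, h3⟩ := hno i j (by omega) (by omega) h
          by_contra hcon
          push Not at hcon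
          have e1 : 4 * (i / 4) = i := by omega
          have e2 : 4 * (j / 4) = j := by omega
          refine hex (i / 4) (j / 4) (by omega) (by omega) ?_ (by rw [e1, e2]; exact h)
          intro hh
          rw [Prod.mk.injEq] at hh
          have := hcon.2 (by omega)
          omega
      · rintro (rfl | ⟨rfl, rfl⟩)
        · exact hstep i (by omega)
        · simpa using hend

end Cyc

end Pool.Agent.Y537.PP
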